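import Mathlib
import Pool.Agent.N452.FF.ZeroSum

/-!
# Integer 3SUM: circuits over formulas of bilinear maps over a finite field

The input consists of `2 n` distinct integers of absolute value at most `(2 n) ^ 3` (`Valid`); is the
sum of three of them zero (`zeroSum`)? The items of the input are each of the first `n` numbers, and the
list of the last `n` numbers.

*Formulas* (`Fml`). The wires carry vectors of dimension `d` over a finite field `K`. The leaves are
vectors, or matrices which are applied to a vector (`act`), which depend in an arbitrary way on one
item, or on `w` words of length `c log₂ (2 n)`, each of which is an arbitrary function of one item. The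
gates are sums, arbitrary bilinear maps of two vectors (`bil`), arbitrary functions of the values of
`e` linear forms (`fn`), and gates `sym` of any fan-in whose value is an arbitrary function of the
number of the inputs for which a linear form is not zero. So products of matrices of order `d` over
`K` (for `K = ZMod 2` in particular branching programs of width `d` and their parity versions), and
the contractions of tensor networks over `K` whose intermediate tensors have at most `d` entries, are
formulas of this kind.

*Circuits* (`Circuit`) compute shared bits; each bit is the result of a branching program whose tests
are formulas, and the leaves may also read the bits computed before. A leaf which reads an item pays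
its price: one for each of the first `n` numbers, nothing for the list of the last `n` numbers, and for
a shared bit the number of those of the first `n` numbers on which the bit depends. The cost is the sum
of the prices of all leaves, plus the number of inner nodes of the branching programs, plus the number
of wires which lead to gates `sym`. All other gates and constants are free.

We show that random circuits with error probability at most `1 / 3` have cost `s` with
`n ^ 2 log₂ n ≤ 2100 (w c log₂ n + d (d + |K| ^ e) log₂ |K|) s`. So for constant `w`, `c`, `K`, `e` vectors
of dimension `O (√(log n))` do not help (up to constant factors), and an algorithm of this kind which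
makes only `n ^ (2 - ε)` readings computes with vectors of dimension `n ^ (ε / 2)`, or with shared bits
which depend on many of the numbers.

Proof. Each of the first `n` numbers can ask for about `n log₂ n / 7` bits which are encoded in the
list of the last `n` numbers (helper457, helper697). We count the functions of this number which arise
when the other items are fixed. If `r` leaves see it or bits which depend on it, there are `O (r)`
places at which other parts enter, and the function of the vector at such a place is an affine map or a
function of `e` linear forms; the values of the shared bits are treated one after the other
(`Pool.Agent.N452.FF.Core`, `Pool.Agent.N452.FF.Prog`; Nechiporuk's method).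
-/

set_option autoImplicit false

namespace Pool.Agent.Results.MP_8f87b2_lc.FieldCircuits

open Pool.Agent.TH697.Form (IsProb)
open Pool.Agent.TH697.Row (ApproximatesOn)
open Pool.Agent.TH697.Form.ThreeSum (Item Valid)
open Pool.Agent.TH457.Ary.ZeroSum (zeroSum)
open Pool.Agent.N452.FF (Circuit)
open Pool.Agent.N452.TF.Xor (pairs)

theorem result : ∀ (K : Type) [Field K] [Fintype K] [DecidableEq K] (n c w d e : ℕ),
    1000 ≤ n → 1 ≤ c → 1 ≤ w → 1 ≤ e →
    ∀ (Ω : Type) [Fintype Ω] (μ : Ω → ℝ), IsProb μ →
      ∀ (s : ℕ) (C : Ω → Circuit K (Option (Fin n)) (Item n n) w ((2 * n) ^ c) d e),
        (∀ ω, (C ω).circ.cost (pairs n) ≤ s) →
        ApproximatesOn μ (fun ω => (C ω).eval) (Valid n n) (zeroSum n) →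
        (n : ℝ) ^ 2 * Real.logb 2 n ≤ 2100 * (w * c * Real.logb 2 n +
          d * (d + (Fintype.card K : ℝ) ^ e) * Real.logb 2 (Fintype.card K)) * s :=
  fun _ _ _ _ _ _ _ _ _ hn hc hw he _ _ μ hμ s C hs hC =>
    Pool.Agent.N452.FF.ZeroSum.bound hn hc hw he μ hμ s C hs hC

end Pool.Agent.Results.MP_8f87b2_lc.FieldCircuits
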