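import Mathlib
import Pool.Agent.N575.ZT.Sum3

/-!
# 3SUM with real numbers: random decision trees with errors on both sides

The input is a list of `3 m` distinct real numbers (`Idx m → ℝ`, three blocks of `m` numbers); the
question is whether three of them, at different places, have the sum zero (`HasZero`). The definitions
are in `Pool/Agent/N575/ZT/Model.lean` (`Conf`, `Alg`, for general families of linear forms) and
`Pool/Agent/N575/ZT/Sum.lean` (`sumConf`):

* `threeSum m` (`= sumConf 1 _ m`): the forms are the sums `w (0, i) + w (1, j) + w (2, i + j)` for
  `i + j < m` (`(threeSum m).val w (i, j)`), and the degenerate inputs `(threeSum m).pot (α, β, δ)` are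
  three arithmetic progressions `α + i δ`, `β + j δ`, `- α - β - k δ`, for which these sums are zero;
* `(threeSum m).Shallow f`: the integer valued function `f` of the input is locally constant near
  `pot x` for a dense set of `x = (α, β, δ)`, for example the sign of every analytic function
  which does not vanish at all degenerate inputs (part 3): comparisons between two numbers or between
  differences, all the other sums of three numbers, all linear forms and polynomials except those
  which vanish at all degenerate inputs;
* `(threeSum m).Regular f`: the real function `f` of the input is, for generic (a comeagre set of)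
  `x`, differentiable at `pot x`, with a value or a derivative which is not zero; for example every
  analytic function which does not vanish of the second order at all degenerate inputs (part 2), and
  so every linear form which is not zero;
* `Alg (threeSum m) Bool`: decision trees; a node asks for the value of a shallow function (`free`),
  for the sign of one of the sums `w (0, i) + w (1, j) + w (2, i + j)` (`test`), or for the sign of a
  regular function (`smooth`). The trees may be infinite, but all branches are finite;
* `run t w`: the answer; `tests t w`, `smooths t w`: the numbers of nodes `test` and `smooth` on the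
  path of the computation. Nodes `free` are not counted.

Let a random decision tree solve the problem with error probability `1 / 3`, and let `T` and `q`
bound the mean numbers of the tests of sums of three numbers and of the regular tests for lists
without three numbers with the sum zero. Then `m ^ 2 ≤ 10 T + 229 m √(m q (2 log m + 5))`, so for
`T ≤ m ^ 2 / 20` at least `c m / log m` regular tests are necessary. `O (m (log m) ^ 2)` linear tests
suffice (Kane, Lovett and Moran), and `O (m ^ 2)` tests of sums of three numbers. For deterministic
trees which test only sums of three numbers the quadratic bound is Erickson's; Ailon and Chazelle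
extended it to linear forms with few terms.

Proof. Near a generic degenerate input there remain the tests of the forms and linear tests for a
direction `u`. Take `u = a + σ g` with a Gaussian vector `g`. For a form `τ` with coefficient vector
`s` let `u'` be the projection of `u` orthogonal to `s`: the value of `τ` is zero, all others remain
positive. The distributions of `u` and of `u'` are mutually singular, but a tree of linear tests
cannot see this if the projection of `s` to the span of the tested forms is small: the path of the
computation for `u` is the same as for the input moved by a vector orthogonal to `s` with the same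
values of the tested forms, which is small (`dz`, `main_zz` in `Pool/Agent/N575/ZT`). So `u` is
compared with `u'` by an adaptive shear orthogonal to `s`, whose relative entropy is of the order of
the mean square of the projection of `s / σ` to the span of the tested forms. The tree is pruned
where this projection becomes large. For all `τ` together the projections have at most the squared
length `3 m q / σ ^ 2`.
-/

set_option autoImplicit false

namespace Pool.Agent.Results.MP_8f87b2_lc.TwoSidedError

open Pool.Agent.N575.LDT (acc)
open Pool.Agent.N575.ZT

/-- the configuration for 3SUM: the forms `w (0, i) + w (1, j) + w (2, i + j)`, `i + j < m`, and the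
degenerate inputs `α + i δ`, `β + j δ`, `- (α + β + k δ)` -/
noncomputable def threeSum (m : ℕ) : Conf (Idx m) (Fin 3) (Tpl m) := sumConf 1 (by decide) m

/-- three of the numbers, at different places, have the sum zero -/
def HasZero {m : ℕ} (w : Idx m → ℝ) : Prop :=
  ∃ a b c, a ≠ b ∧ a ≠ c ∧ b ≠ c ∧ w a + w b + w c = 0

open Classical in
/-- the probability of `Y` -/
noncomputable def prob {ι : Type} [Fintype ι] (p : ι → ℝ) (Y : ι → Prop) : ℝ :=
  ∑ i, if Y i then p i else 0

/-- the mean of `Y` -/
def mean {ι : Type} [Fintype ι] (p : ι → ℝ) (Y : ι → ℕ) : ℝ := ∑ i, p i * Y i

theorem prob_eq {ι : Type} [Fintype ι] (p : ι → ℝ) (Y : ι → Bool) :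
    prob p (fun i => Y i = true) = ∑ i, p i * acc (Y i) := by
  unfold prob acc
  refine Finset.sum_congr rfl fun i _ => ?_
  split_ifs <;> simp

/-- 1. Random decision trees (`t i` with probability `p i`) which accept with probability at least
`2 / 3` the lists of `3 m` distinct real numbers without three numbers with the sum zero, and with
probability at most `1 / 3` the lists of distinct numbers with such a triple. `T` and `q` bound the
mean numbers of the tests of sums of three numbers and of regular functions in the first case.
2. An analytic function is regular if its value or its derivative is not zero for some degenerate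
input.
3. The sign of an analytic function is shallow if its value is not zero for some degenerate input. -/
theorem result :
    (∀ m : ℕ, 1 ≤ m → ∀ (ι : Type) [Fintype ι] (p : ι → ℝ),
      (∀ i, 0 ≤ p i) → ∑ i, p i = 1 → ∀ (t : ι → Alg (threeSum m) Bool) (T q : ℝ),
      (∀ w, Function.Injective w → ¬ HasZero w → 2 / 3 ≤ prob p fun i => (t i).run w = true) →
      (∀ w, Function.Injective w → HasZero w → (prob p fun i => (t i).run w = true) ≤ 1 / 3) →
      (∀ w, Function.Injective w → ¬ HasZero w →
        mean p (fun i => (t i).tests w) ≤ T ∧ mean p (fun i => (t i).smooths w) ≤ q) →
      (m : ℝ) ^ 2 ≤ 10 * T + 229 * m * √(m * q * (2 * Real.log m + 5))) ∧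
    (∀ (m : ℕ) (f : (Idx m → ℝ) → ℝ), AnalyticOnNhd ℝ f Set.univ →
      (∃ x, f ((threeSum m).pot x) ≠ 0 ∨ fderiv ℝ f ((threeSum m).pot x) ≠ 0) →
      (threeSum m).Regular f) ∧
    (∀ (m : ℕ) (f : (Idx m → ℝ) → ℝ), AnalyticOnNhd ℝ f Set.univ →
      (∃ x, f ((threeSum m).pot x) ≠ 0) →
      (threeSum m).Shallow fun w => ((SignType.sign (f w) : SignType) : ℤ)) := by
  refine ⟨?_, fun m f hf h => regular_analytic hf h, fun m f hf h => shallow_sign hf h⟩
  intro m hm ι _ p hp hp1 t T q h1 h2 h3
  have e : ∀ w : Idx m → ℝ, (∃ a b c, a ≠ b ∧ a ≠ c ∧ b ≠ c ∧
      w a + w b + ((1 : SignType) : ℝ) * w c = 0) ↔ HasZero w := by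
    intro w
    simp only [SignType.coe_one, one_mul]
    rfl
  refine sum_final (s := 1) (hs := by decide) hp hp1 id t hm (T := T) (q := q) ?_ ?_
  · intro w hw hz
    rw [e] at hz
    have h4 := h1 w hw hz
    have h5 := h3 w hw hz
    rw [prob_eq] at h4
    exact ⟨h4, h5.1, h5.2⟩
  · intro w hw hz
    rw [e] at hz
    have h4 := h2 w hw hz
    rw [prob_eq] at h4
    exact h4

end Pool.Agent.Results.MP_8f87b2_lc.TwoSidedError
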